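import Pool.Agent.H1.Bic

namespace Pool.Agent.Results.MP_28a56a_co.Gap

open Finset Pool.Agent.H1.Bic

variable {a b : ℕ}

/-- `(X, Y)` is a biclique of the bipartite graph with edge set `E`. -/
def Bic (E : Finset (Fin a × Fin b)) (X : Finset (Fin a)) (Y : Finset (Fin b)) : Prop :=
  X.Nonempty ∧ Y.Nonempty ∧ X ×ˢ Y ⊆ E

/-- `κ` of the subgraph induced on `A ∪ B`. -/
noncomputable def kappa (E : Finset (Fin a × Fin b)) (A : Finset (Fin a)) (B : Finset (Fin b)) : ℝ :=
  sSup {h | ∃ X ⊆ A, ∃ Y ⊆ B, Bic E X Y ∧ h = (X.card * Y.card : ℝ) / (X.card + Y.card)}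

noncomputable def eta (E E' : Finset (Fin a × Fin b)) : ℝ :=
  sInf {w | ∃ X Y, Bic E X Y ∧ (E' ∩ X ×ˢ Y).Nonempty ∧
    w = (X.card + Y.card : ℝ) / (E' ∩ X ×ˢ Y).card}

noncomputable def etaStar (E : Finset (Fin a × Fin b)) : ℝ :=
  sSup {v | ∃ E' ⊆ E, E'.Nonempty ∧ v = E'.card * eta E E'}

noncomputable def mu (E : Finset (Fin a × Fin b)) : ℝ :=
  sSup {v | ∃ A B, (E ∩ A ×ˢ B).Nonempty ∧ v = (E ∩ A ×ˢ B).card / kappa E A B}

lemma le_kappa {E : Finset (Fin a × Fin b)} {A X : Finset (Fin a)} {B Y : Finset (Fin b)}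
    (h1 : X ⊆ A) (h2 : Y ⊆ B) (h : Bic E X Y) :
    (X.card * Y.card : ℝ) / (X.card + Y.card) ≤ kappa E A B := by
  refine le_csSup (((Set.finite_range fun p : Finset (Fin a) × Finset (Fin b) =>
    (p.1.card * p.2.card : ℝ) / (p.1.card + p.2.card)).subset ?_).bddAbove) ⟨X, h1, Y, h2, h, rfl⟩
  rintro _ ⟨X, -, Y, -, -, rfl⟩
  exact ⟨(X, Y), rfl⟩

lemma half_le {E : Finset (Fin a × Fin b)} {A : Finset (Fin a)} {B : Finset (Fin b)}
    (h : (E ∩ A ×ˢ B).Nonempty) : 1 / 2 ≤ kappa E A B := by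
  obtain ⟨⟨x, y⟩, hp⟩ := h
  simp only [mem_inter, mem_product] at hp
  have := le_kappa (E := E) (singleton_subset_iff.2 hp.2.1) (singleton_subset_iff.2 hp.2.2)
    ⟨by simp, by simp, by simp [hp.1]⟩
  norm_num at this ⊢
  exact this

lemma mu_pos {E : Finset (Fin a × Fin b)} (h : E.Nonempty) : 0 < mu E := by
  have h' : (E ∩ univ ×ˢ univ).Nonempty := by simpa using h
  refine lt_of_lt_of_le ?_ (le_csSup (((Set.finite_range fun p : Finset (Fin a) × Finset (Fin b) =>
    ((E ∩ p.1 ×ˢ p.2).card : ℝ) / kappa E p.1 p.2).subset ?_).bddAbove) ⟨univ, univ, h', rfl⟩)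
  · have := half_le h'
    have := card_pos.2 h'
    positivity
  · rintro _ ⟨X, Y, -, rfl⟩
    exact ⟨(X, Y), rfl⟩

lemma mu_le {E : Finset (Fin a × Fin b)} (h : E.Nonempty) (M : ℝ)
    (hM : ∀ A B, (E ∩ A ×ˢ B).Nonempty → (A.card * B.card : ℝ) ≤ M * kappa E A B) : mu E ≤ M := by
  refine csSup_le ⟨_, univ, univ, by simpa using h, rfl⟩ ?_
  rintro _ ⟨A, B, h, rfl⟩
  have := half_le h
  rw [div_le_iff₀ (by linarith)]
  refine le_trans ?_ (hM A B h)
  exact_mod_cast (card_le_card inter_subset_right).trans (card_product A B).le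

lemma le_etaStar {E E' : Finset (Fin a × Fin b)} (h : E' ⊆ E) (hn : E'.Nonempty) (W : ℕ)
    (hW : ∀ X Y, Bic E X Y → (E' ∩ X ×ˢ Y).card ≤ W * (X.card + Y.card)) :
    (E'.card : ℝ) / W ≤ etaStar E := by
  refine le_trans ?_ (le_csSup (((Set.finite_range fun p : Finset (Fin a × Fin b) =>
    (p.card : ℝ) * eta E p).subset ?_).bddAbove) ⟨E', h, hn, rfl⟩)
  · rw [div_eq_mul_inv]
    refine mul_le_mul_of_nonneg_left (le_csInf ?_ ?_) (by positivity)
    · obtain ⟨⟨x, y⟩, hp⟩ := hn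
      exact ⟨_, {x}, {y}, ⟨by simp, by simp, by simp [h hp]⟩, ⟨(x, y), by simp [hp]⟩, rfl⟩
    · rintro _ ⟨X, Y, h1, h2, rfl⟩
      have a1 := hW X Y h1
      have a2 := card_pos.2 h2
      have a3 : 0 < W := Nat.pos_of_mul_pos_right (a2.trans_le a1)
      rw [le_div_iff₀ (by positivity), inv_mul_le_iff₀ (by positivity)]
      exact_mod_cast a1
  · rintro _ ⟨X, -, -, rfl⟩
    exact ⟨X, rfl⟩

lemma core (m : ℕ) (hm : 2 ≤ m) : ∃ E : Finset (Fin (2 ^ m) × Fin (2 ^ m)), (∀ x, (x, x) ∈ E) ∧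
    mu E ≤ 32 * m ^ 2 * 2 ^ m ∧ (2 ^ m * 2 ^ m : ℝ) / 8 / (m + 2) ≤ etaStar E := by
  classical
  have : NeZero (4 * m) := ⟨by omega⟩
  obtain ⟨α, hα⟩ := disp m
  obtain ⟨s, hs⟩ := shift (2 * m) (4 * m) (by ring) α
  let F := fun p : Fin (2 ^ m) × Fin (2 ^ m) => ∃ x, α p.1 x = α p.2 x + s
  let D := univ.filter fun p => ¬ (F p ∨ p.1 = p.2)
  have n4 : 4 ≤ 2 ^ m := le_trans (by norm_num) (Nat.pow_le_pow_right (by norm_num) hm)
  have hD : 2 ^ m * 2 ^ m ≤ 4 * D.card := by
    have e := card_filter_add_card_filter_not (s := univ) (fun p => F p ∨ p.1 = p.2)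
    rw [filter_or] at e
    have a1 := card_union_le (univ.filter F) (univ.filter fun p => p.1 = p.2)
    have a2 : (univ.filter fun p : Fin (2 ^ m) × Fin (2 ^ m) => p.1 = p.2).card ≤ 2 ^ m := by
      refine le_trans (card_le_card (t := univ.image fun x => (x, x)) ?_)
        (card_image_le.trans (by simp))
      rintro ⟨x, y⟩ h
      simpa [eq_comm] using h
    simp only [card_univ, Fintype.card_prod, Fintype.card_fin] at e hs
    have a3 := Nat.mul_le_mul_right (2 ^ m) n4
    simp only [D, F] at *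
    omega
  obtain ⟨R, hR⟩ := colour m D
  obtain ⟨c, hc⟩ : ∃ c, D.card ≤ 2 * (D.filter fun p => R p = c).card := by
    have e := card_filter_add_card_filter_not (s := D) (fun p => R p = true)
    by_cases h : D.card ≤ 2 * (D.filter fun p => R p = true).card
    · exact ⟨_, h⟩
    · exact ⟨false, by simp only [Bool.not_eq_true] at e; omega⟩
  let E := univ.filter fun p => (F p ∨ p.1 = p.2) ∨ R p = c
  have d : ∀ x, (x, x) ∈ E := by simp [E]
  refine ⟨E, d, mu_le ⟨_, d ⟨0, by omega⟩⟩ _ fun A B hne => ?_, ?_⟩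
  · obtain ⟨A', sA, cA, pA⟩ := pop α A
    obtain ⟨B', sB, cB, pB⟩ := pop α B
    simp only [Fintype.card_fin, ZMod.card] at pA pB
    have lA : A.card ≤ 2 ^ m := by simpa using card_le_univ A
    have lB : B.card ≤ 2 ^ m := by simpa using card_le_univ B
    have k2 := half_le hne
    by_cases h : ∃ u ∈ A', ∃ v ∈ B', ∃ x, α u x = α v x + s
    · obtain ⟨u, hu, v, hv, x, e⟩ := h
      have k := le_kappa (E := E) (filter_subset (fun w => α w x = α u x) A)
        (filter_subset (fun w => α w x = α v x) B) ⟨⟨u, by simp [sA hu]⟩, ⟨v, by simp [sB hv]⟩, by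
          rintro ⟨p, q⟩ hp
          simp only [mem_product, mem_filter] at hp
          exact mem_filter.2 ⟨mem_univ _, Or.inl (Or.inl ⟨x, by rw [hp.1.2, hp.2.2, e]⟩)⟩⟩
      have p1 := pA u hu x
      have p2 := pB v hv x
      have p3 : 0 < (A.filter fun w => α w x = α u x).card := card_pos.2 ⟨u, by simp [sA hu]⟩
      generalize (A.filter fun w => α w x = α u x).card = y at *
      generalize (B.filter fun w => α w x = α v x).card = z at *
      refine le_trans ?_ (mul_le_mul_of_nonneg_left k (by positivity))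
      rw [← mul_div_assoc, le_div_iff₀ (by positivity)]
      have q1 := Nat.mul_le_mul (Nat.mul_le_mul lA p2) (le_refl y)
      have q2 := Nat.mul_le_mul (Nat.mul_le_mul p1 lB) (le_refl z)
      have : A.card * B.card * (y + z) ≤ 32 * m ^ 2 * 2 ^ m * (y * z) := by nlinarith
      exact_mod_cast this
    · push Not at h
      have key : A'.card < 8 * m + 2 ∨ B'.card < 8 * m + 2 := by
        by_contra hh
        push Not at hh
        have u1 := mt (fun h => hα (fun x => A'.image (α · x)) h A'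
          fun u hu x => mem_image_of_mem _ hu) (not_lt.2 hh.1)
        have u2 := mt (fun h => hα (fun x => B'.image (α · x)) h B'
          fun u hu x => mem_image_of_mem _ hu) (not_lt.2 hh.2)
        have u3 := Nat.mul_lt_mul'' (not_le.1 u1) (not_le.1 u2)
        rw [← prod_mul_distrib, ← mul_pow] at u3
        refine absurd u3 (not_lt.2 ((prod_le_pow_card _ _ (2 * m * (2 * m)) fun x _ => ?_).trans
          (by simp)))
        have v1 : Disjoint (A'.image (α · x)) ((B'.image (α · x)).image (· + s)) := by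
          rw [disjoint_left]
          intro w h1 h2
          simp only [mem_image, exists_exists_and_eq_and] at h1 h2
          obtain ⟨u, hu, rfl⟩ := h1
          obtain ⟨v, hv, e⟩ := h2
          exact h u hu v hv x e.symm
        have v2 := card_le_univ ((A'.image (α · x)).disjUnion _ v1)
        rw [card_disjUnion, card_image_of_injective _ (add_left_injective s), ZMod.card] at v2
        generalize (A'.image (α · x)).card = i at *
        generalize (B'.image (α · x)).card = j at *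
        zify at v2 ⊢
        nlinarith [sq_nonneg ((i : ℤ) - j), mul_self_le_mul_self (by positivity) v2]
      have : A.card * B.card ≤ 16 * m ^ 2 * 2 ^ m := by
        have w : 2 * (8 * m + 2) ≤ 16 * m ^ 2 := by nlinarith
        rcases key with k | k
        · exact Nat.mul_le_mul (by omega) lB
        · rw [mul_comm]; exact Nat.mul_le_mul (by omega) lA
      have t : (A.card * B.card : ℝ) ≤ 16 * m ^ 2 * 2 ^ m := by exact_mod_cast this
      have : (0 : ℝ) ≤ 16 * m ^ 2 * 2 ^ m := by positivity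
      nlinarith
  · have c1 : 2 ^ m * 2 ^ m ≤ 8 * (D.filter fun p => R p = c).card := by omega
    refine le_trans ?_ (le_etaStar (E' := D.filter fun p => R p = c) ?_
      (card_pos.1 (by nlinarith)) (m + 2) fun X Y h => ?_)
    · push_cast
      gcongr
      rw [div_le_iff₀' (by norm_num)]
      exact_mod_cast c1
    · intro p hp
      exact mem_filter.2 ⟨mem_univ _, Or.inr (mem_filter.1 hp).2⟩
    · refine (card_le_card (inter_subset_inter_right (filter_subset _ _))).trans (hR c X Y ?_)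
      intro p hp
      obtain ⟨p1, p2⟩ := mem_inter.1 hp
      exact (mem_filter.1 (h.2.2 p2)).2.resolve_left (mem_filter.1 p1).2

theorem result (n : ℕ) (hn : 8 ≤ n) : ∃ (a b : ℕ) (E : Finset (Fin a × Fin b)), a + b ≤ n ∧
    (∀ x, ∃ y, (x, y) ∈ E) ∧ (∀ y, ∃ x, (x, y) ∈ E) ∧ 0 < mu E ∧
    (n : ℝ) / (2048 * (Nat.log 2 n : ℝ) ^ 3) ≤ etaStar E / mu E := by
  have h3 : 3 ≤ Nat.log 2 n := Nat.le_log_of_pow_le (by norm_num) hn
  obtain ⟨m, hm⟩ : ∃ m, Nat.log 2 n = m + 1 := ⟨Nat.log 2 n - 1, by omega⟩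
  obtain ⟨E, d, h1, h2⟩ := core m (by omega)
  have a1 := Nat.pow_log_le_self 2 (by omega : n ≠ 0)
  have a2 := Nat.lt_pow_succ_log_self (by norm_num : 1 < 2) n
  rw [hm] at a1 a2
  have p := mu_pos ⟨_, d ⟨0, by positivity⟩⟩
  refine ⟨_, _, E, by rw [pow_succ] at a1; omega, fun x => ⟨x, d x⟩, fun x => ⟨x, d x⟩, p, ?_⟩
  have m0 : (2 : ℝ) ≤ m := by exact_mod_cast (by omega : 2 ≤ m)
  have a3 : (n : ℝ) ≤ 4 * 2 ^ m := by
    have : n ≤ 4 * 2 ^ m := by rw [pow_succ, pow_succ] at a2; omega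
    exact_mod_cast this
  refine le_trans ?_ (div_le_div₀ (le_trans (by positivity) h2) h2 p h1)
  rw [hm, div_div, div_div, div_le_div_iff₀ (by positivity) (by positivity)]
  push_cast
  have t0 : (0 : ℝ) < 2 ^ m := by positivity
  generalize (2 : ℝ) ^ m = t at *
  calc (n : ℝ) * (8 * ((m + 2) * (32 * m ^ 2 * t))) ≤ 4 * t * (8 * ((m + 2) * (32 * m ^ 2 * t))) := by
        gcongr
    _ = t * t * (1024 * ((m + 2) * m ^ 2)) := by ring
    _ ≤ _ := by gcongr t * t * ?_; nlinarith [sq_nonneg (m : ℝ), pow_pos (by linarith : (0 : ℝ) < m) 3]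

end Pool.Agent.Results.MP_28a56a_co.Gap
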